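import Pool.Agent.H84.FK.Targets3

/-!
Module FUS of fk2_modules (MP_85c4d1_al): fusion in the centraliser of an isolated involution.
-/

set_option autoImplicit false

namespace Pool.Agent.H60.FKFUS

open Pool.Agent.H84.FK

theorem pf_fus : T_FUS := by
  intro G _ _ M z hz hM hiso y hy g hg
  obtain ⟨z2, hz2⟩ : ∃ z2 : G, z2 = g⁻¹ * z * g := ⟨_, rfl⟩
  obtain ⟨y2, hy2⟩ : ∃ y2 : G, y2 = g⁻¹ * y * g := ⟨_, rfl⟩
  rw [← hy2] at hg ⊢
  have zz2 : z2 * z2 = 1 := by
    rw [hz2]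
    calc g⁻¹ * z * g * (g⁻¹ * z * g) = g⁻¹ * (z * z) * g := by group
      _ = 1 := by rw [hz]; group
  have hzi : z⁻¹ = z := inv_eq_of_mul_eq_one_right hz
  have hz2i : z2⁻¹ = z2 := inv_eq_of_mul_eq_one_right zz2
  have hyz : y * z = z * y := (hM y).2 hy
  have hy2z : y2 * z = z * y2 := (hM y2).2 hg
  have hy2z2 : y2 * z2 = z2 * y2 := by
    rw [hy2, hz2]
    calc g⁻¹ * y * g * (g⁻¹ * z * g) = g⁻¹ * (y * z) * g := by group
      _ = g⁻¹ * (z * y) * g := by rw [hyz]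
      _ = g⁻¹ * z * g * (g⁻¹ * y * g) := by group
  obtain ⟨r, hr⟩ : ∃ r : G, r = z * z2 := ⟨_, rfl⟩
  have hcr : Commute y2 r := by
    rw [hr]
    exact (show Commute y2 z from hy2z).mul_right hy2z2
  have hinv : r⁻¹ = z2 * z := by rw [hr, mul_inv_rev, hzi, hz2i]
  have hz2r : z2 = r⁻¹ * z := by rw [hinv, mul_assoc, hz, mul_one]
  have hsc : SemiconjBy z r r⁻¹ := by
    show z * r = r⁻¹ * z
    rw [hinv, hr, ← mul_assoc, hz, one_mul, mul_assoc, hz, mul_one]
  have hsp : ∀ j : ℕ, z * r ^ j = (r ^ j)⁻¹ * z := by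
    intro j
    have h := hsc.pow_right j
    rw [inv_pow] at h
    exact h
  have hconj : ∀ j : ℕ, r ^ j * z * (r ^ j)⁻¹ = r ^ (j + j) * z := by
    intro j
    have h := hsp j
    have h' : z * (r ^ j)⁻¹ = r ^ j * z := by
      calc z * (r ^ j)⁻¹ = r ^ j * ((r ^ j)⁻¹ * z) * (r ^ j)⁻¹ := by
            rw [mul_inv_cancel_left]
        _ = r ^ j * (z * r ^ j) * (r ^ j)⁻¹ := by rw [h]
        _ = r ^ j * z := by rw [← mul_assoc, mul_inv_cancel_right]
    rw [mul_assoc, h', ← mul_assoc, ← pow_add]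
  have hpos : 0 < orderOf r := orderOf_pos r
  rcases Nat.even_or_odd (orderOf r) with ⟨k, hk⟩ | ⟨k, hk⟩
  · exfalso
    have hcc : r ^ k * r ^ k = 1 := by rw [← pow_add, ← hk, pow_orderOf_eq_one]
    have hc1 : r ^ k ≠ 1 := by
      intro h
      have h1 := Nat.le_of_dvd (by omega) (orderOf_dvd_of_pow_eq_one h)
      omega
    have hci : (r ^ k)⁻¹ = r ^ k := inv_eq_of_mul_eq_one_right hcc
    have hex : ∃ h : G, h⁻¹ * z * h = r ^ k * z := by
      rcases Nat.even_or_odd k with ⟨j, hj⟩ | ⟨j, hj⟩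
      · refine ⟨(r ^ j)⁻¹, ?_⟩
        rw [inv_inv, hconj j, hj]
      · refine ⟨g * (r ^ (j + 1))⁻¹, ?_⟩
        calc (g * (r ^ (j + 1))⁻¹)⁻¹ * z * (g * (r ^ (j + 1))⁻¹)
            = r ^ (j + 1) * (g⁻¹ * z * g) * (r ^ (j + 1))⁻¹ := by
              rw [mul_inv_rev, inv_inv]; simp only [mul_assoc]
          _ = r ^ (j + 1) * (r⁻¹ * z) * (r ^ (j + 1))⁻¹ := by rw [← hz2, hz2r]
          _ = r⁻¹ * (r ^ (j + 1) * z * (r ^ (j + 1))⁻¹) := by
              have : r ^ (j + 1) * r⁻¹ = r⁻¹ * r ^ (j + 1) :=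
                (((Commute.refl r).pow_left (j + 1)).inv_right).eq
              simp only [← mul_assoc]
              rw [this]
          _ = r⁻¹ * (r ^ (j + 1 + (j + 1)) * z) := by rw [hconj]
          _ = r ^ k * z := by
              rw [← mul_assoc, show j + 1 + (j + 1) = k + 1 by omega, pow_succ', inv_mul_cancel_left]
    obtain ⟨h, hh⟩ := hex
    have hmem : h⁻¹ * z * h ∈ M := by
      rw [hh]
      apply (hM _).1
      rw [mul_assoc, hz, mul_one, ← mul_assoc, hsp k, hci, mul_assoc, hz, mul_one]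
    have h3 := hiso h hmem
    rw [hh] at h3
    exact hc1 (mul_eq_right.mp h3)
  · have hr1 : r ^ (k + k) = r⁻¹ := by
      have h1 : r ^ (k + k) * r = 1 := by
        rw [← pow_succ, show k + k + 1 = orderOf r by omega, pow_orderOf_eq_one]
      exact eq_inv_of_mul_eq_one_left h1
    have hcz : r ^ k * z * (r ^ k)⁻¹ = z2 := by rw [hconj k, hr1, ← hz2r]
    refine ⟨g * r ^ k, ?_, ?_⟩
    · apply (hM _).1
      -- g c z = z g c
      have h1 : r ^ k * z = z2 * r ^ k := by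
        rw [← hcz, inv_mul_cancel_right]
      calc g * r ^ k * z = g * (r ^ k * z) := by rw [mul_assoc]
        _ = g * (z2 * r ^ k) := by rw [h1]
        _ = z * (g * r ^ k) := by
            rw [hz2]; group
    · have hc : Commute y2 (r ^ k) := hcr.pow_right k
      calc y2 = (r ^ k)⁻¹ * (y2 * r ^ k) := by rw [hc.eq, inv_mul_cancel_left]
        _ = (g * r ^ k)⁻¹ * y * (g * r ^ k) := by
            rw [hy2]; group

end Pool.Agent.H60.FKFUS
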