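import Pool.Agent.H84.FK.Targets3

/-!
Module Z6B of fk2_modules (MP_85c4d1_al): contradiction in the case of two even factors.
-/

set_option autoImplicit false

namespace Pool.Agent.H60.FKZ6B

open Pool.Agent.H84.FK

/-- facts about one factor: `e` an involution of `A0`, `t ∈ A \ A0` -/
theorem side {G : Type} [Group G] {A A0 : Subgroup G} (hab : Ab A0) (h2 : Two A A0)
    {e t : G} (he : e ∈ A0) (ee : e * e = 1) (ht : t ∈ A) (htn : t ∉ A0)
    (hne : t⁻¹ * e * t ≠ e) :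
    e * (t⁻¹ * e * t) ∈ A0 ∧ e * (t⁻¹ * e * t) ≠ 1 ∧
      (e * (t⁻¹ * e * t)) ^ (2 ^ 1) = 1 ∧
      (∀ a ∈ A, a * (e * (t⁻¹ * e * t)) = (e * (t⁻¹ * e * t)) * a) := by
  obtain ⟨hle, hmul⟩ := h2
  have htin : t⁻¹ ∉ A0 := fun h => htn (by simpa using A0.inv_mem h)
  have het : e * t ∉ A0 := fun h => htn (by
    have := A0.mul_mem (A0.inv_mem he) h
    simpa using this)
  have hmem : t⁻¹ * e * t ∈ A0 := by
    rw [mul_assoc]
    exact hmul _ (A.inv_mem ht) _ (A.mul_mem (hle he) ht) htin het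
  have hei : e⁻¹ = e := inv_eq_of_mul_eq_one_right ee
  have htt : t * t ∈ A0 := hmul _ ht _ ht htn htn
  obtain ⟨f, hf⟩ : ∃ f : G, f = t⁻¹ * e * t := ⟨_, rfl⟩
  rw [← hf] at hmem hne ⊢
  have hff : f * f = 1 := by
    rw [hf]
    calc t⁻¹ * e * t * (t⁻¹ * e * t) = t⁻¹ * (e * e) * t := by group
      _ = 1 := by rw [ee]; group
  have hef : e * f = f * e := hab e he f hmem
  have htf : t⁻¹ * f * t = e := by
    rw [hf]
    calc t⁻¹ * (t⁻¹ * e * t) * t = (t * t)⁻¹ * (e * (t * t)) := by group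
      _ = (t * t)⁻¹ * ((t * t) * e) := by rw [hab e he _ htt]
      _ = e := by rw [inv_mul_cancel_left]
  have hu0 : e * f ∈ A0 := A0.mul_mem he hmem
  have htu : t * (e * f) = (e * f) * t := by
    have h1 : t⁻¹ * (e * f) * t = e * f := by
      calc t⁻¹ * (e * f) * t = (t⁻¹ * e * t) * (t⁻¹ * f * t) := by group
        _ = f * e := by rw [htf, ← hf]
        _ = e * f := hef.symm
    calc t * (e * f) = t * (t⁻¹ * (e * f) * t) := by rw [h1]
      _ = (e * f) * t := by group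
  refine ⟨hu0, ?_, ?_, ?_⟩
  · intro h
    apply hne
    have : f = e⁻¹ := eq_inv_of_mul_eq_one_right h
    rw [this, hei]
  · rw [pow_one, pow_two]
    calc e * f * (e * f) = (e * f) * (f * e) := by rw [← hef]
      _ = e * (f * f) * e := by group
      _ = 1 := by rw [hff, mul_one, ee]
  · intro a ha
    by_cases ha0 : a ∈ A0
    · exact hab a ha0 _ hu0
    · have h1 : a * t⁻¹ ∈ A0 := hmul _ ha _ (A.inv_mem ht) ha0 htin
      have h2 := hab _ h1 _ hu0
      calc a * (e * f) = (a * t⁻¹) * (t * (e * f)) := by group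
        _ = (a * t⁻¹) * ((e * f) * t) := by rw [htu]
        _ = ((a * t⁻¹) * (e * f)) * t := by simp only [mul_assoc]
        _ = ((e * f) * (a * t⁻¹)) * t := by rw [h2]
        _ = (e * f) * a := by group

/-- an element of `A0` that `t ∈ A \ A0` fixes is central in `A` -/
theorem central {G : Type} [Group G] {A A0 : Subgroup G} (hab : Ab A0) (h2 : Two A A0)
    {e t : G} (he : e ∈ A0) (ht : t ∈ A) (htn : t ∉ A0)
    (hne : t⁻¹ * e * t = e) : ∀ a ∈ A, a * e = e * a := by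
  obtain ⟨hle, hmul⟩ := h2
  have htin : t⁻¹ ∉ A0 := fun h => htn (by simpa using A0.inv_mem h)
  have hte : t * e = e * t := by
    calc t * e = t * (t⁻¹ * e * t) := by rw [hne]
      _ = e * t := by group
  intro a ha
  by_cases ha0 : a ∈ A0
  · exact hab a ha0 _ he
  · have h1 : a * t⁻¹ ∈ A0 := hmul _ ha _ (A.inv_mem ht) ha0 htin
    have h2 := hab _ h1 _ he
    calc a * e = (a * t⁻¹) * (t * e) := by group
      _ = (a * t⁻¹) * (e * t) := by rw [hte]
      _ = ((a * t⁻¹) * e) * t := by simp only [mul_assoc]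
      _ = (e * (a * t⁻¹)) * t := by rw [h2]
      _ = e * a := by group

theorem pf_z6b (hD7 : T_D7) : T_Z6B := by
  intro G _ A A0 B B0 S u z e d hCE hSY hZ
  haveI : Finite G := hCE.fin
  have hD := hD7 G A A0 B B0 hCE
  obtain ⟨t, htS, htA, htn⟩ := hSY.sA
  obtain ⟨s, hsS, hsB, hsn⟩ := hSY.sB
  have hne1 : t⁻¹ * e * t ≠ e := by
    intro h
    have hc := central hCE.abA hCE.twoA hZ.eA0 htA htn h
    refine hD e z 1 hZ.ene hZ.zne hc hZ.cz ?_
    simpa using hZ.ez
  have hne2 : s⁻¹ * d * s ≠ d := by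
    intro h
    have hc := central hCE.abB hCE.twoB hZ.dB0 hsB hsn h
    refine hD u d 1 hZ.une hZ.dne hZ.cu hc ?_
    simpa using hZ.du.symm
  obtain ⟨hu0, hune, hu2, hucen⟩ := side hCE.abA hCE.twoA hZ.eA0 hZ.e2 htA htn hne1
  obtain ⟨hz0, hzne, hz2, hzcen⟩ := side hCE.abB hCE.twoB hZ.dB0 hZ.d2 hsB hsn hne2
  have huS := hSY.uA _ hu0 ⟨1, hu2⟩
  have hzS := hSY.uB _ hz0 ⟨1, hz2⟩
  obtain ⟨et, het⟩ : ∃ x : G, x = t⁻¹ * e * t := ⟨_, rfl⟩
  obtain ⟨ds, hds⟩ : ∃ x : G, x = s⁻¹ * d * s := ⟨_, rfl⟩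
  rw [← het] at hne1 hu0 hune hu2 hucen huS
  rw [← hds] at hne2 hz0 hzne hz2 hzcen hzS
  obtain ⟨u1, hu1⟩ : ∃ x : G, x = e * et := ⟨_, rfl⟩
  obtain ⟨z1, hz1⟩ : ∃ x : G, x = d * ds := ⟨_, rfl⟩
  rw [← hu1] at hu0 hune hu2 hucen huS
  rw [← hz1] at hz0 hzne hz2 hzcen hzS
  have hei : e⁻¹ = e := inv_eq_of_mul_eq_one_right hZ.e2
  have hdi : d⁻¹ = d := inv_eq_of_mul_eq_one_right hZ.d2
  have hds' : ds = d * z1 := by
    rw [hz1, ← mul_assoc, hZ.d2, one_mul]
  -- t⁻¹ d t = u1 d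
  have htd : t⁻¹ * d * t = u1 * d := by
    have hw := hZ.cw t htS
    have h1 : t⁻¹ * (e * d) * t = e * d := by
      rw [mul_assoc, ← hw, inv_mul_cancel_left]
    have h2 : et * et = 1 := by
      rw [het]
      calc t⁻¹ * e * t * (t⁻¹ * e * t) = t⁻¹ * (e * e) * t := by group
        _ = 1 := by rw [hZ.e2]; group
    have h3 : et * (t⁻¹ * d * t) = e * d := by
      rw [← h1, het]; group
    have hete : et * e = e * et := by
      -- both in A0
      have hetA : et ∈ A0 := by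
        have := A0.mul_mem (A0.inv_mem hZ.eA0) hu0
        rwa [hu1, inv_mul_cancel_left] at this
      exact hCE.abA et hetA e hZ.eA0
    calc t⁻¹ * d * t = (et * et) * (t⁻¹ * d * t) := by rw [h2, one_mul]
      _ = et * (et * (t⁻¹ * d * t)) := by simp only [mul_assoc]
      _ = et * (e * d) := by rw [h3]
      _ = u1 * d := by rw [hu1, ← mul_assoc, hete]
  -- d commutes with S ∩ A0
  have hdA : ∀ a ∈ S, a ∈ A0 → a * d = d * a := by
    intro a haS ha0
    have hw := hZ.cw a haS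
    have hae := hCE.abA a ha0 e hZ.eA0
    have h1 : e * (a * d) = e * (d * a) := by
      calc e * (a * d) = (e * a) * d := by simp only [mul_assoc]
        _ = (a * e) * d := by rw [hae]
        _ = a * (e * d) := by simp only [mul_assoc]
        _ = (e * d) * a := hw
        _ = e * (d * a) := by simp only [mul_assoc]
    exact mul_left_cancel h1
  have hdB : ∀ b ∈ B0, b * d = d * b := fun b hb => hCE.abB b hb d hZ.dB0
  have hud : u1 * d = d * u1 := hdA u1 huS hu0
  have hzd : z1 * d = d * z1 := hdB z1 hz0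
  -- nilpotency
  haveI : Fact (Nat.Prime 2) := ⟨Nat.prime_two⟩
  haveI : Group.IsNilpotent S := hSY.pg.isNilpotent
  have hnc : NormalizerCondition S := Group.normalizerCondition_of_isNilpotent
  let H : Subgroup S := (Subgroup.centralizer ({d} : Set G)).subgroupOf S
  have hmemH : ∀ x : S, x ∈ H ↔ (x : G) * d = d * (x : G) := by
    intro x
    rw [Subgroup.mem_subgroupOf, Subgroup.mem_centralizer_iff]
    simp only [Set.mem_singleton_iff, forall_eq]
    exact ⟨fun h => h.symm, fun h => h.symm⟩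
  have hHlt : H < ⊤ := by
    rw [lt_top_iff_ne_top]
    intro h
    have h1 : (⟨s, hsS⟩ : S) ∈ H := by rw [h]; exact Subgroup.mem_top _
    rw [hmemH] at h1
    apply hne2
    rw [hds]
    have h1' : s * d = d * s := h1
    rw [mul_assoc, ← h1', inv_mul_cancel_left]
  obtain ⟨n, hnN, hnH⟩ := SetLike.exists_of_lt (hnc H hHlt)
  rw [Subgroup.mem_normalizer_iff] at hnN
  rw [hmemH] at hnH
  -- c commutes with n⁻¹ d n for c ∈ C
  have hcd : ∀ c ∈ S, c * d = d * c →
      c * ((n : G)⁻¹ * d * n) = ((n : G)⁻¹ * d * n) * c := by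
    intro c hcS hc
    have h1 := (hnN ⟨c, hcS⟩).1 ((hmemH _).2 hc)
    rw [hmemH] at h1
    have h2 : ((n : G) * c * (n : G)⁻¹) * d = d * ((n : G) * c * (n : G)⁻¹) := h1
    calc c * ((n : G)⁻¹ * d * n) = (n : G)⁻¹ * (((n : G) * c * (n : G)⁻¹) * d) * n := by group
      _ = (n : G)⁻¹ * (d * ((n : G) * c * (n : G)⁻¹)) * n := by rw [h2]
      _ = ((n : G)⁻¹ * d * n) * c := by group
  have hu1n := hcd u1 huS hud
  have hz1n := hcd z1 hzS hzd
  obtain ⟨al, halA, halS, be, hbeB, hbeS, hn⟩ := hSY.fac n n.2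
  have hconjn : (n : G)⁻¹ * d * n = be⁻¹ * (al⁻¹ * d * al) * be := by
    rw [hn]; group
  rw [hconjn] at hu1n hz1n
  -- conjugates by be
  have hbe : be ∉ B0 → be⁻¹ * d * be = d * z1 := by
    intro hb
    have hsin : s⁻¹ ∉ B0 := fun h => hsn (by simpa using B0.inv_mem h)
    have h1 : be * s⁻¹ ∈ B0 := hCE.twoB.2 _ hbeB _ (B.inv_mem hsB) hb hsin
    have h2 := hdB _ h1
    calc be⁻¹ * d * be = s⁻¹ * ((be * s⁻¹)⁻¹ * (d * (be * s⁻¹))) * s := by group
      _ = s⁻¹ * ((be * s⁻¹)⁻¹ * ((be * s⁻¹) * d)) * s := by rw [h2]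
      _ = s⁻¹ * d * s := by rw [inv_mul_cancel_left]
      _ = d * z1 := by rw [← hds, hds']
  by_cases hal : al ∈ A0
  · have h1 : al⁻¹ * d * al = d := by
      rw [mul_assoc, ← hdA al halS hal, inv_mul_cancel_left]
    rw [h1] at hu1n hz1n
    by_cases hb : be ∈ B0
    · apply hnH
      rw [hn]
      calc al * be * d = al * (be * d) := by simp only [mul_assoc]
        _ = al * (d * be) := by rw [hdB be hb]
        _ = (al * d) * be := by simp only [mul_assoc]
        _ = (d * al) * be := by rw [hdA al halS hal]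
        _ = d * (al * be) := by simp only [mul_assoc]
    · rw [hbe hb] at hu1n
      -- u1 (d z1) = (d z1) u1
      have h2 : d * (u1 * z1) = d * (z1 * u1) := by
        calc d * (u1 * z1) = (d * u1) * z1 := by simp only [mul_assoc]
          _ = (u1 * d) * z1 := by rw [hud]
          _ = u1 * (d * z1) := by simp only [mul_assoc]
          _ = (d * z1) * u1 := hu1n
          _ = d * (z1 * u1) := by simp only [mul_assoc]
      have h3 := mul_left_cancel h2
      refine hD u1 z1 1 hune hzne hucen hzcen ?_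
      simpa using h3
  · have htin : t⁻¹ ∉ A0 := fun h => htn (by simpa using A0.inv_mem h)
    have h1 : al * t⁻¹ ∈ A0 := hCE.twoA.2 _ halA _ (A.inv_mem htA) hal htin
    have h1S : al * t⁻¹ ∈ S := S.mul_mem halS (S.inv_mem htS)
    have h2 := hdA _ h1S h1
    have h3 : al⁻¹ * d * al = u1 * d := by
      calc al⁻¹ * d * al = t⁻¹ * ((al * t⁻¹)⁻¹ * (d * (al * t⁻¹))) * t := by group
        _ = t⁻¹ * ((al * t⁻¹)⁻¹ * ((al * t⁻¹) * d)) * t := by rw [h2]
        _ = t⁻¹ * d * t := by rw [inv_mul_cancel_left]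
        _ = u1 * d := htd
    rw [h3] at hz1n
    have h4 : be⁻¹ * (u1 * d) * be = (be⁻¹ * u1 * be) * (be⁻¹ * d * be) := by group
    rw [h4] at hz1n
    -- z1 commutes with be⁻¹ d be
    have hbeinv : be⁻¹ * d * be ∈ B :=
      B.mul_mem (B.mul_mem (B.inv_mem hbeB) (hCE.twoB.1 hZ.dB0)) hbeB
    have h5 := hzcen _ hbeinv
    have h6 : (be⁻¹ * u1 * be) * z1 = z1 * (be⁻¹ * u1 * be) := by
      have h7 : ((be⁻¹ * u1 * be) * z1) * (be⁻¹ * d * be) =
          (z1 * (be⁻¹ * u1 * be)) * (be⁻¹ * d * be) := by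
        calc ((be⁻¹ * u1 * be) * z1) * (be⁻¹ * d * be)
            = (be⁻¹ * u1 * be) * (z1 * (be⁻¹ * d * be)) := by simp only [mul_assoc]
          _ = (be⁻¹ * u1 * be) * ((be⁻¹ * d * be) * z1) := by rw [h5]
          _ = (be⁻¹ * u1 * be) * (be⁻¹ * d * be) * z1 := by simp only [mul_assoc]
          _ = z1 * ((be⁻¹ * u1 * be) * (be⁻¹ * d * be)) := by rw [hz1n]
          _ = (z1 * (be⁻¹ * u1 * be)) * (be⁻¹ * d * be) := by simp only [mul_assoc]
      exact mul_right_cancel h7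
    refine hD u1 z1 be⁻¹ hune hzne hucen hzcen ?_
    rw [inv_inv]
    exact h6

end Pool.Agent.H60.FKZ6B
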